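import Mathlib

/-!
# The strong skew Finitesatz in several variables

`F` is a finite field, `σ` an automorphism of `F`, and `SkewPoly σ n` is the skew polynomial ring
`F[x_1, ..., x_n; σ]` (commuting variables, `x_i a = σ(a) x_i`).
We prove `I(V(J)) = J + I(F^{n,σ})` for every left ideal `J`.

Proof idea.  Evaluation at a point `a` of the `σ`-affine space is the module homomorphism
`R → M_a = F` onto a simple left `R`-module.  The product of the finitely many modules `M_a` is
semisimple, so the image of `J` in it has a complement `C`.  Write `(1, ..., 1) = u + v` along this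
decomposition.  If `v_a ≠ 0` then the conjugate point `σ(v_a) a / v_a` is again a point of the
affine space, and it is a common zero of `J`.
-/

set_option autoImplicit false

namespace Pool.Agent.Results.MP_89f45c_al.StrongSkewFinitesatz

open Finset

section Defs

variable {F : Type*} [Field F]

/-- The monoid of exponents `ℕ^n`, written multiplicatively, tagged by the automorphism `σ`. -/
def Expo (_σ : F ≃+* F) (n : ℕ) : Type := Multiplicative (Fin n → ℕ)

instance (σ : F ≃+* F) (n : ℕ) : CommMonoid (Expo σ n) :=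
  inferInstanceAs (CommMonoid (Multiplicative (Fin n → ℕ)))

/-- The exponent vector `(k_1, ..., k_n)` underlying an element of `Expo σ n`. -/
def Expo.vec {σ : F ≃+* F} {n : ℕ} (k : Expo σ n) : Fin n → ℕ := Multiplicative.toAdd k

/-- The monomial `x_1^{k_1} ⋯ x_n^{k_n}` acts on `F` by `σ^{k_1 + ⋯ + k_n}`. -/
instance (σ : F ≃+* F) (n : ℕ) : MulSemiringAction (Expo σ n) F where
  smul k c := (σ ^ (∑ i, k.vec i)) c
  one_smul c := by
    change (σ ^ (∑ i : Fin n, 0)) c = c
    simp
  mul_smul k l c := by
    change (σ ^ (∑ i, (k.vec i + l.vec i))) c = (σ ^ (∑ i, k.vec i)) ((σ ^ (∑ i, l.vec i)) c)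
    rw [Finset.sum_add_distrib, pow_add]
    rfl
  smul_zero k := map_zero _
  smul_add k c d := map_add _ c d
  smul_one k := map_one _
  smul_mul k c d := map_mul _ c d

/-- The skew polynomial ring `R_n = F[x_1, ..., x_n; σ]`: finite sums `∑ a_k x^k` with
coefficients on the left, with product determined by `(a x^k)(b x^l) = a σ^{|k|}(b) x^{k+l}`. -/
abbrev SkewPoly (σ : F ≃+* F) (n : ℕ) : Type _ := SkewMonoidAlgebra F (Expo σ n)

/-- The `σ`-affine space `F^{n,σ}`. -/
def AffineSpace (σ : F ≃+* F) (n : ℕ) : Type _ :=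
  {a : Fin n → F // ∀ i j, σ (a j) * a i = σ (a i) * a j}

/-- `N_k(a) = σ^{k-1}(a) ⋯ σ(a) a`. -/
def N (σ : F ≃+* F) (k : ℕ) (a : F) : F := ∏ j ∈ range k, (σ ^ j) a

/-- The value of the monomial `x_1^{k_1} ⋯ x_n^{k_n}` at `a`, namely
`∏_i σ^{k_1 + ⋯ + k_{i-1}} (N_{k_i}(a_i))`. -/
def monomialValue (σ : F ≃+* F) {n : ℕ} (k : Fin n → ℕ) (a : Fin n → F) : F :=
  ∏ i, (σ ^ (∑ j ∈ Finset.Iio i, k j)) (N σ (k i) (a i))

/-- The value `f(a) = ∑_k a_k [x^k](a)` of a skew polynomial at a point. -/
noncomputable def eval {σ : F ≃+* F} {n : ℕ} (f : SkewPoly σ n) (a : AffineSpace σ n) : F :=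
  ∑ k ∈ f.support, f.coeff k * monomialValue σ k.vec a.1

end Defs

section Lemmas

variable {F : Type*} [Field F]

lemma eval_eq_sum {σ : F ≃+* F} {n : ℕ} (f : SkewPoly σ n) (a : AffineSpace σ n) :
    eval f a = f.sum (fun k c => c * monomialValue σ k.vec a.1) := rfl

lemma eval_add {σ : F ≃+* F} {n : ℕ} (f g : SkewPoly σ n) (a : AffineSpace σ n) :
    eval (f + g) a = eval f a + eval g a := by
  simp only [eval_eq_sum]
  exact SkewMonoidAlgebra.sum_add_index' (by simp) (by intros; ring)

lemma eval_zero {σ : F ≃+* F} {n : ℕ} (a : AffineSpace σ n) :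
    eval (0 : SkewPoly σ n) a = 0 := by
  simp [eval_eq_sum]

lemma eval_single {σ : F ≃+* F} {n : ℕ} (k : Expo σ n) (c : F) (a : AffineSpace σ n) :
    eval (SkewMonoidAlgebra.single k c : SkewPoly σ n) a = c * monomialValue σ k.vec a.1 := by
  rw [eval_eq_sum, SkewMonoidAlgebra.sum_single_index]
  simp

lemma N_add (σ : F ≃+* F) (s t : ℕ) (b : F) : N σ (s + t) b = (σ ^ s) (N σ t b) * N σ s b := by
  unfold N
  rw [Finset.prod_range_add, map_prod, mul_comm]
  congr 1
  refine Finset.prod_congr rfl fun j _ => ?_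
  rw [pow_add]
  rfl

lemma N_mul (σ : F ≃+* F) (s : ℕ) (c b : F) : N σ s (c * b) = N σ s c * N σ s b := by
  unfold N
  rw [← Finset.prod_mul_distrib]
  exact Finset.prod_congr rfl fun j _ => map_mul _ _ _

lemma pow_fix {σ : F ≃+* F} {c : F} (hc : σ c = c) (s : ℕ) : (σ ^ s) c = c := by
  induction s with
  | zero => rfl
  | succ s ih =>
    rw [pow_succ]
    change (σ ^ s) (σ c) = c
    rw [hc, ih]

lemma N_fix {σ : F ≃+* F} {c : F} (hc : σ c = c) (s : ℕ) : N σ s c = c ^ s := by
  unfold N
  rw [Finset.prod_congr rfl fun j _ => pow_fix hc j]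
  simp

/-- Every point of the affine space is of the form `(c_1 b, ..., c_n b)` with `σ(c_i) = c_i`. -/
lemma exists_form {σ : F ≃+* F} {n : ℕ} (a : AffineSpace σ n) :
    ∃ (b : F) (c : Fin n → F), (∀ i, σ (c i) = c i) ∧ ∀ i, a.1 i = c i * b := by
  by_cases h : ∃ i, a.1 i ≠ 0
  · obtain ⟨i, hi⟩ := h
    refine ⟨a.1 i, fun j => a.1 j / a.1 i, fun j => ?_, fun j => ?_⟩
    · have h1 := a.2 i j
      have h2 : σ (a.1 i) ≠ 0 := by simpa using hi
      rw [map_div₀, div_eq_div_iff h2 hi, h1]
      ring
    · field_simp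
  · push Not at h
    exact ⟨1, fun _ => 0, fun _ => map_zero _, fun i => by simp [h i]⟩

/-- partial products of the `N`-cocycle along an initial segment -/
lemma prod_N_fin {σ : F ≃+* F} : ∀ {n : ℕ} (k : Fin n → ℕ) (b : F),
    ∏ i, (σ ^ (∑ j ∈ Finset.Iio i, k j)) (N σ (k i) b) = N σ (∑ i, k i) b := by
  intro n
  induction n with
  | zero => intro k b; simp [N]
  | succ n ih =>
    intro k b
    rw [Fin.prod_univ_castSucc, Fin.sum_univ_castSucc, N_add, mul_comm]
    congr 1
    · have : ∑ j ∈ Finset.Iio (Fin.last n), k j = ∑ i : Fin n, k i.castSucc := by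
        have h : Finset.Iio (Fin.last n) = Finset.univ.map Fin.castSuccEmb := by
          ext x
          simp only [Finset.mem_Iio, Finset.mem_map, Finset.mem_univ, true_and]
          constructor
          · intro hx
            exact ⟨x.castPred hx.ne, by simp⟩
          · rintro ⟨y, rfl⟩
            exact Fin.castSucc_lt_last y
        rw [h, Finset.sum_map]
        rfl
      rw [this]
    · rw [← ih (fun i => k i.castSucc) b]
      refine Finset.prod_congr rfl fun i _ => ?_
      congr 2
      rw [← Fin.map_castSuccEmb_Iio, Finset.sum_map]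
      rfl

/-- On points in the normal form, the value of a monomial has a closed form. -/
lemma monomialValue_form {σ : F ≃+* F} {n : ℕ} (k : Fin n → ℕ) {b : F} {c : Fin n → F}
    (hc : ∀ i, σ (c i) = c i) (a : Fin n → F) (ha : ∀ i, a i = c i * b) :
    monomialValue σ k a = (∏ i, c i ^ k i) * N σ (∑ i, k i) b := by
  unfold monomialValue
  rw [← prod_N_fin k b, ← Finset.prod_mul_distrib]
  refine Finset.prod_congr rfl fun i _ => ?_
  rw [ha i, N_mul, N_fix (hc i), map_mul, map_pow, pow_fix (hc i)]

/-- The cocycle identity for the values of monomials. -/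
lemma monomialValue_add {σ : F ≃+* F} {n : ℕ} (k l : Fin n → ℕ) (a : AffineSpace σ n) :
    monomialValue σ (k + l) a.1 =
      (σ ^ (∑ i, k i)) (monomialValue σ l a.1) * monomialValue σ k a.1 := by
  obtain ⟨b, c, hc, ha⟩ := exists_form a
  rw [monomialValue_form (k + l) hc a.1 ha, monomialValue_form l hc a.1 ha,
    monomialValue_form k hc a.1 ha, map_mul, map_prod]
  have h1 : ∑ i, (k + l) i = ∑ i, k i + ∑ i, l i := by
    simp [Finset.sum_add_distrib]
  have h2 : ∏ i, c i ^ ((k + l) i) = (∏ i, c i ^ k i) * ∏ i, c i ^ l i := by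
    rw [← Finset.prod_mul_distrib]
    exact Finset.prod_congr rfl fun i _ => by rw [Pi.add_apply, pow_add]
  have h3 : ∏ i, (σ ^ (∑ i, k i)) (c i ^ l i) = ∏ i, c i ^ l i :=
    Finset.prod_congr rfl fun i _ => by rw [map_pow, pow_fix (hc i)]
  rw [h1, h2, h3, N_add]
  ring

lemma monomialValue_zero {σ : F ≃+* F} {n : ℕ} (a : Fin n → F) :
    monomialValue σ (0 : Fin n → ℕ) a = 1 := by
  unfold monomialValue
  refine Finset.prod_eq_one fun i _ => ?_
  simp [N]

/-- The action of the monomial `x^k` on the one-dimensional module attached to the point `a`. -/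
def monAct {σ : F ≃+* F} {n : ℕ} (a : AffineSpace σ n) : Expo σ n →* AddMonoid.End F where
  toFun k :=
    { toFun := fun z => (σ ^ (∑ i, k.vec i)) z * monomialValue σ k.vec a.1
      map_zero' := by simp
      map_add' := fun x y => by rw [map_add, add_mul] }
  map_one' := by
    ext z
    change (σ ^ (∑ i : Fin n, 0)) z * monomialValue σ (0 : Fin n → ℕ) a.1 = z
    rw [monomialValue_zero]
    simp
  map_mul' k l := by
    ext z
    change (σ ^ (∑ i, (k.vec i + l.vec i))) z * monomialValue σ (k.vec + l.vec) a.1 =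
      (σ ^ (∑ i, k.vec i)) ((σ ^ (∑ i, l.vec i)) z * monomialValue σ l.vec a.1) *
        monomialValue σ k.vec a.1
    rw [monomialValue_add, Finset.sum_add_distrib, pow_add, map_mul, mul_assoc]
    rfl

/-- The ring homomorphism giving the left module attached to the point `a`. -/
noncomputable def rep {σ : F ≃+* F} {n : ℕ} (a : AffineSpace σ n) :
    SkewPoly σ n →+* AddMonoid.End F :=
  SkewMonoidAlgebra.liftNCRingHom (Module.toAddMonoidEnd F F) (monAct a) (by
    intro x y
    ext z
    change (σ ^ (∑ i, y.vec i)) x * ((σ ^ (∑ i, y.vec i)) z * monomialValue σ y.vec a.1) =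
      (σ ^ (∑ i, y.vec i)) (x * z) * monomialValue σ y.vec a.1
    rw [map_mul, mul_assoc])

lemma rep_single {σ : F ≃+* F} {n : ℕ} (a : AffineSpace σ n) (k : Expo σ n) (c z : F) :
    rep a (SkewMonoidAlgebra.single k c) z =
      c * ((σ ^ (∑ i, k.vec i)) z * monomialValue σ k.vec a.1) := by
  have h : rep a (SkewMonoidAlgebra.single k c) =
      (Module.toAddMonoidEnd F F c) * monAct a k :=
    SkewMonoidAlgebra.liftNC_single _ _ _ _
  rw [h]
  rfl

/-- The left `R_n`-module attached to the point `a`. -/
def PointModule {σ : F ≃+* F} {n : ℕ} (_a : AffineSpace σ n) : Type _ := F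

instance {σ : F ≃+* F} {n : ℕ} (a : AffineSpace σ n) : AddCommGroup (PointModule a) :=
  inferInstanceAs (AddCommGroup F)

noncomputable instance {σ : F ≃+* F} {n : ℕ} (a : AffineSpace σ n) :
    Module (SkewPoly σ n) (PointModule a) where
  smul f z := rep a f z
  one_smul z := by
    change rep a 1 z = z
    rw [map_one]; rfl
  mul_smul f g z := by
    change rep a (f * g) z = rep a f (rep a g z)
    rw [map_mul]; rfl
  smul_zero f := map_zero _
  smul_add f x y := map_add _ _ _
  add_smul f g z := by
    change rep a (f + g) z = rep a f z + rep a g z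
    rw [map_add]; rfl
  zero_smul z := by
    change rep a 0 z = 0
    rw [map_zero]; rfl

/-- The identity map from the module of a point to `F`. -/
def PointModule.val {σ : F ≃+* F} {n : ℕ} {a : AffineSpace σ n} : PointModule a ≃+ F :=
  AddEquiv.refl F

lemma val_smul {σ : F ≃+* F} {n : ℕ} {a : AffineSpace σ n} (f : SkewPoly σ n)
    (z : PointModule a) : (f • z).val = rep a f z.val := rfl

/-- The conjugate of the point `a` by a nonzero scalar `z`. -/
noncomputable def conj {σ : F ≃+* F} {n : ℕ} (a : AffineSpace σ n) (z : F) : AffineSpace σ n :=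
  ⟨fun i => σ z * a.1 i / z, fun i j => by
    have h := a.2 i j
    rw [map_div₀, map_div₀, map_mul, map_mul, div_mul_div_comm, div_mul_div_comm]
    congr 1
    calc σ (σ z) * σ (a.1 j) * (σ z * a.1 i) = σ (σ z) * σ z * (σ (a.1 j) * a.1 i) := by ring
      _ = σ (σ z) * σ z * (σ (a.1 i) * a.1 j) := by rw [h]
      _ = σ (σ z) * σ (a.1 i) * (σ z * a.1 j) := by ring⟩

lemma N_conj (σ : F ≃+* F) (s : ℕ) (b : F) {z : F} (hz : z ≠ 0) :
    N σ s (σ z * b / z) * z = (σ ^ s) z * N σ s b := by
  induction s with
  | zero => simp [N]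
  | succ s ih =>
    have h1 : N σ (s + 1) (σ z * b / z) =
        N σ s (σ z * b / z) * (σ ^ s) (σ z * b / z) := by
      simp only [N]; rw [Finset.prod_range_succ]
    have h2 : N σ (s + 1) b = N σ s b * (σ ^ s) b := by
      simp only [N]; rw [Finset.prod_range_succ]
    have h3 : (σ ^ (s + 1)) z = (σ ^ s) (σ z) := by rw [pow_succ]; rfl
    have hz' : (σ ^ s) z ≠ 0 := (map_ne_zero (σ ^ s)).2 hz
    rw [h1, h2, h3]
    calc N σ s (σ z * b / z) * (σ ^ s) (σ z * b / z) * z
        = (N σ s (σ z * b / z) * z) * (σ ^ s) (σ z * b / z) := by ring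
      _ = (σ ^ s) z * N σ s b * ((σ ^ s) (σ z) * (σ ^ s) b / (σ ^ s) z) := by
          rw [ih, map_div₀, map_mul]
      _ = (σ ^ s) (σ z) * (N σ s b * (σ ^ s) b) := by field_simp

lemma monomialValue_conj {σ : F ≃+* F} {n : ℕ} (k : Fin n → ℕ) (a : AffineSpace σ n) {z : F}
    (hz : z ≠ 0) :
    monomialValue σ k (conj a z).1 * z = (σ ^ (∑ i, k i)) z * monomialValue σ k a.1 := by
  obtain ⟨b, c, hc, ha⟩ := exists_form a
  have ha' : ∀ i, (conj a z).1 i = c i * (σ z * b / z) := by
    intro i
    change σ z * a.1 i / z = _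
    rw [ha i]
    ring
  rw [monomialValue_form k hc a.1 ha, monomialValue_form k hc _ ha', mul_assoc,
    N_conj σ _ b hz]
  ring

/-- The product formula: `f` acts on `z ≠ 0` in the module of `a` as multiplication by the value
of `f` at the conjugate point. -/
lemma rep_eq_eval_conj {σ : F ≃+* F} {n : ℕ} (a : AffineSpace σ n) (f : SkewPoly σ n) {z : F}
    (hz : z ≠ 0) : rep a f z = eval f (conj a z) * z := by
  induction f using SkewMonoidAlgebra.induction_on with
  | zero => rw [map_zero, eval_zero, zero_mul]; rfl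
  | single k c =>
    rw [rep_single, eval_single, mul_assoc, monomialValue_conj _ _ hz]
  | add f g hf hg =>
    rw [map_add, eval_add, add_mul, ← hf, ← hg]; rfl

lemma conj_one {σ : F ≃+* F} {n : ℕ} (a : AffineSpace σ n) : conj a 1 = a := by
  apply Subtype.ext
  funext i
  simp [conj]

lemma rep_one {σ : F ≃+* F} {n : ℕ} (a : AffineSpace σ n) (f : SkewPoly σ n) :
    rep a f 1 = eval f a := by
  rw [rep_eq_eval_conj a f one_ne_zero, conj_one, mul_one]

lemma eval_mul_eq_zero {σ : F ≃+* F} {n : ℕ} (g : SkewPoly σ n) {f : SkewPoly σ n}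
    {a : AffineSpace σ n} (h : eval f a = 0) : eval (g * f) a = 0 := by
  rw [← rep_one, map_mul]
  change rep a g (rep a f 1) = 0
  rw [rep_one, h, map_zero]

instance {σ : F ≃+* F} {n : ℕ} (a : AffineSpace σ n) :
    IsSimpleModule (SkewPoly σ n) (PointModule a) := by
  rw [isSimpleModule_iff_toSpanSingleton_surjective]
  refine ⟨inferInstanceAs (Nontrivial F), fun z hz w => ?_⟩
  have hz' : z.val ≠ 0 := hz
  refine ⟨SkewMonoidAlgebra.single 1 (w.val / z.val), ?_⟩
  apply PointModule.val.injective
  rw [LinearMap.toSpanSingleton_apply, val_smul, rep_single]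
  change w.val / z.val * ((σ ^ (∑ i : Fin n, 0)) z.val *
    monomialValue σ (0 : Fin n → ℕ) a.1) = w.val
  rw [monomialValue_zero]
  simp [hz']

end Lemmas

section Main

variable {F : Type*} [Field F]

/-- `I(S)`: the left ideal of all skew polynomials vanishing at every point of `S`. -/
def vanishingIdeal {σ : F ≃+* F} {n : ℕ} (S : Set (AffineSpace σ n)) : Ideal (SkewPoly σ n) where
  carrier := {f | ∀ a ∈ S, eval f a = 0}
  add_mem' := fun hf hg a ha => by rw [eval_add, hf a ha, hg a ha, add_zero]
  zero_mem' := fun a _ => eval_zero a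
  smul_mem' := fun g _ hf a ha => eval_mul_eq_zero g (hf a ha)

/-- `V(J)`: the set of all points of the affine space at which every element of `J` vanishes. -/
def zeroLocus {σ : F ≃+* F} {n : ℕ} (J : Ideal (SkewPoly σ n)) : Set (AffineSpace σ n) :=
  {a | ∀ f ∈ J, eval f a = 0}

/-- **Strong skew Finitesatz in several variables.**  For every finite field `F`, every
automorphism `σ` of `F`, every number `n` of variables and every left ideal `J` of
`F[x_1, ..., x_n; σ]` one has `I(V(J)) = J + I(F^{n,σ})`. -/
theorem result (F : Type*) [Field F] [Finite F] (σ : F ≃+* F) (n : ℕ)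
    (J : Ideal (SkewPoly σ n)) :
    vanishingIdeal (zeroLocus J) = J ⊔ vanishingIdeal (Set.univ : Set (AffineSpace σ n)) := by
  have : Finite (AffineSpace σ n) := Subtype.finite
  apply le_antisymm
  · intro f hf
    let one : ∀ a : AffineSpace σ n, PointModule a := fun _ => PointModule.val.symm 1
    let E : SkewPoly σ n →ₗ[SkewPoly σ n] (∀ a : AffineSpace σ n, PointModule a) :=
      LinearMap.toSpanSingleton _ _ one
    have hE : ∀ (g : SkewPoly σ n) (a : AffineSpace σ n), (E g a).val = eval g a :=
      fun g a => rep_one a g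
    let W : Submodule (SkewPoly σ n) (∀ a : AffineSpace σ n, PointModule a) := Submodule.map E J
    obtain ⟨C, hC⟩ : ∃ C : Submodule (SkewPoly σ n) (∀ a : AffineSpace σ n, PointModule a),
      IsCompl W C := exists_isCompl W
    obtain ⟨u, hu, v, hv, huv⟩ : ∃ u ∈ W, ∃ v ∈ C, u + v = one := by
      have h : one ∈ W ⊔ C := by rw [hC.sup_eq_top]; trivial
      exact Submodule.mem_sup.1 h
    have hEg : ∀ g : SkewPoly σ n, E g = g • u + g • v := by
      intro g
      rw [← smul_add, huv]
      rfl
    -- elements of `J` kill `v`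
    have hJv : ∀ g ∈ J, g • v = 0 := by
      intro g hg
      have h1 : g • v ∈ C := C.smul_mem g hv
      have h2 : g • v ∈ W := by
        have h3 : g • v = E g - g • u := by rw [hEg g]; abel
        rw [h3]
        exact Submodule.sub_mem _ (Submodule.mem_map_of_mem hg) (Submodule.smul_mem _ g hu)
      exact (Submodule.mem_bot _).1 (hC.disjoint.le_bot ⟨h2, h1⟩)
    -- hence so does `f`
    have hfv : f • v = 0 := by
      funext a
      apply PointModule.val.injective
      rw [Pi.smul_apply, val_smul, Pi.zero_apply, map_zero]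
      by_cases hva : (v a).val = 0
      · rw [hva, map_zero]
      · have hmem : conj a (v a).val ∈ zeroLocus J := by
          intro g hg
          have h1 : rep a g (v a).val = 0 := by
            have h2 := congrFun (hJv g hg) a
            rw [Pi.smul_apply, Pi.zero_apply] at h2
            rw [← val_smul, h2, map_zero]
          rw [rep_eq_eval_conj a g hva] at h1
          exact (mul_eq_zero.1 h1).resolve_right hva
        rw [rep_eq_eval_conj a f hva, hf _ hmem, zero_mul]
    have hEf : E f ∈ W := by
      rw [hEg f, hfv, add_zero]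
      exact Submodule.smul_mem _ f hu
    obtain ⟨g, hg, hgf⟩ := hEf
    have hfg : f = g + (f - g) := by abel
    rw [hfg]
    refine Submodule.add_mem_sup hg ?_
    intro a _
    rw [← hE, map_sub, hgf, sub_self]
    rfl
  · refine sup_le ?_ ?_
    · intro f hf a ha
      exact ha f hf
    · intro f hf a _
      exact hf a (Set.mem_univ a)

end Main

end Pool.Agent.Results.MP_89f45c_al.StrongSkewFinitesatz
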